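import Mathlib
import Pool.Agent.R161.Az.Defs

set_option autoImplicit false

namespace Pool.Agent.R161.Az

open Finset Matrix Polynomial

/-- Vandermonde determinant of natural numbers in terms of binomial coefficients -/
theorem vdm_choose (N : ℕ) (v : Fin N → ℕ) :
    (Matrix.vandermonde (fun i => (v i : ℝ))).det =
      sf N * (Matrix.of fun i j : Fin N => ((v i).choose j : ℝ)).det := by
  rw [Matrix.det_eval_matrixOfPolynomials_eq_det_vandermonde (fun i => (v i : ℝ))
      (fun i => descPochhammer ℝ i)
      (fun i => descPochhammer_natDegree ℝ i)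
      (fun i => monic_descPochhammer ℝ i)]
  have h1 : (Matrix.of fun i j : Fin N => (descPochhammer ℝ (j : ℕ)).eval ((v i : ℕ) : ℝ)) =
      Matrix.of (fun i j : Fin N => ((j : ℕ).factorial : ℝ) *
        (Matrix.of fun i j : Fin N => ((v i).choose j : ℝ)) i j) := by
    ext i j
    simp only [Matrix.of_apply]
    rw [descPochhammer_eval_eq_descFactorial ℝ _ _, Nat.descFactorial_eq_factorial_mul_choose]
    push_cast
    ring
  rw [h1, Matrix.det_mul_row (fun j : Fin N => ((j : ℕ).factorial : ℝ))]
  congr 1
  unfold sf
  rw [Fin.prod_univ_eq_prod_range (fun i => (i.factorial : ℝ)) N]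

end Pool.Agent.R161.Az
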