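import Mathlib
import Pool.Agent.R161.Az.Defs
import Pool.Agent.R102.Az.Vdm

set_option autoImplicit false

namespace Pool.Agent.R161.Az

open Finset Matrix Filter Topology

/-! ### The Gram matrix -/

/-- `C(i,l) a^(i-l)` -/
noncomputable def Pm (a : ℝ) : ℕ → ℕ → ℝ
  | 0, 0 => 1
  | 0, _ + 1 => 0
  | i + 1, 0 => a * Pm a i 0
  | i + 1, l + 1 => Pm a i l + a * Pm a i (l + 1)

theorem Pm_zero (a : ℝ) : ∀ i, Pm a i 0 = a ^ i
  | 0 => by simp [Pm]
  | i + 1 => by rw [Pm, Pm_zero a i, pow_succ, mul_comm]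

theorem Pm_lt (a : ℝ) : ∀ i l, i < l → Pm a i l = 0
  | 0, 0, h => absurd h (lt_irrefl _)
  | 0, l + 1, _ => by simp [Pm]
  | i + 1, 0, h => absurd h (by omega)
  | i + 1, l + 1, h => by
    rw [Pm, Pm_lt a i l (by omega), Pm_lt a i (l + 1) (by omega)]
    ring

theorem Pm_self (a : ℝ) : ∀ i, Pm a i i = 1
  | 0 => by simp [Pm]
  | i + 1 => by
    rw [Pm, Pm_self a i, Pm_lt a i (i + 1) (by omega)]
    ring

/-- the truncated Gram entries -/
noncomputable def hh (a : ℝ) (N i j : ℕ) : ℝ :=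
  ∑ l ∈ range N, Pm a i l * (a + a ^ 2) ^ l * Pm a j l

theorem hh_zero_left (a : ℝ) (N j : ℕ) (hN : 0 < N) : hh a N 0 j = a ^ j := by
  obtain ⟨M, rfl⟩ : ∃ M, N = M + 1 := ⟨N - 1, by omega⟩
  unfold hh
  rw [Finset.sum_range_succ']
  rw [Finset.sum_eq_zero]
  · simp [Pm, Pm_zero]
  · intro l _
    simp [Pm]

theorem hh_zero_right (a : ℝ) (N i : ℕ) (hN : 0 < N) : hh a N i 0 = a ^ i := by
  have : hh a N i 0 = hh a N 0 i := by
    unfold hh
    apply Finset.sum_congr rfl
    intro l _
    ring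
  rw [this, hh_zero_left a N i hN]

theorem hh_succ (a : ℝ) (N i j : ℕ) (hi : i < N) : hh a (N + 1) (i + 1) (j + 1) =
    a * (hh a (N + 1) (i + 1) j + hh a (N + 1) i (j + 1) + hh a (N + 1) i j) := by
  have h1 : hh a (N + 1) i j = hh a N i j := by
    unfold hh
    rw [Finset.sum_range_succ, Pm_lt a i N hi]
    ring
  have h2 : hh a (N + 1) (i + 1) (j + 1) - a * hh a (N + 1) (i + 1) j
      - a * hh a (N + 1) i (j + 1) + a ^ 2 * hh a (N + 1) i j = (a + a ^ 2) * hh a N i j := by
    unfold hh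
    rw [Finset.mul_sum, Finset.mul_sum, Finset.mul_sum, Finset.mul_sum,
      ← Finset.sum_sub_distrib, ← Finset.sum_sub_distrib, ← Finset.sum_add_distrib,
      Finset.sum_range_succ']
    have h0 : Pm a (i + 1) 0 * (a + a ^ 2) ^ 0 * Pm a (j + 1) 0 -
        a * (Pm a (i + 1) 0 * (a + a ^ 2) ^ 0 * Pm a j 0) -
        a * (Pm a i 0 * (a + a ^ 2) ^ 0 * Pm a (j + 1) 0) +
        a ^ 2 * (Pm a i 0 * (a + a ^ 2) ^ 0 * Pm a j 0) = 0 := by
      simp only [Pm]
      ring
    rw [h0, add_zero]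
    apply Finset.sum_congr rfl
    intro l _
    simp only [Pm]
    ring
  rw [h1] at h2 ⊢
  linarith

theorem det_hh (a : ℝ) (n : ℕ) : (Matrix.of fun i j : Fin n => hh a n i j).det =
    (a + a ^ 2) ^ (n * (n - 1) / 2) := by
  have h1 : (Matrix.of fun i j : Fin n => hh a n i j) =
      (Matrix.of fun i l : Fin n => Pm a i l) *
        (Matrix.diagonal fun l : Fin n => (a + a ^ 2) ^ (l : ℕ)) *
        (Matrix.of fun i l : Fin n => Pm a i l)ᵀ := by
    ext i j
    rw [Matrix.mul_apply]
    simp only [Matrix.of_apply, Matrix.mul_diagonal, Matrix.transpose_apply]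
    unfold hh
    rw [Finset.sum_range]
  have h2 : (Matrix.of fun i l : Fin n => Pm a i l).det = 1 := by
    rw [Matrix.det_of_lowerTriangular]
    · simp [Pm_self]
    · intro i j hij
      simp only [Matrix.of_apply]
      apply Pm_lt
      exact hij
  rw [h1, Matrix.det_mul, Matrix.det_mul, Matrix.det_transpose, h2, Matrix.det_diagonal,
    Fin.prod_univ_eq_prod_range (fun l => (a + a ^ 2) ^ l) n, Finset.prod_pow_eq_pow_sum,
    Finset.sum_range_id]
  ring

/-! ### The infinite sums -/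

theorem sum_choose (q : ℝ) (h0 : 0 < q) (h1 : q < 1) (i j : ℕ) :
    Summable (fun k : ℕ => ((k.choose i : ℝ) * (k.choose j)) * q ^ k) := by
  have hs := summable_pow_mul_geometric_of_norm_lt_one (R := ℝ) (i + j) (r := q)
    (by rw [Real.norm_eq_abs, abs_of_pos h0]; exact h1)
  refine Summable.of_nonneg_of_le (fun k => by positivity) (fun k => ?_) hs
  have a1 : (k.choose i : ℝ) ≤ (k : ℝ) ^ i := by exact_mod_cast Nat.choose_le_pow k i
  have a2 : (k.choose j : ℝ) ≤ (k : ℝ) ^ j := by exact_mod_cast Nat.choose_le_pow k j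
  rw [pow_add]
  gcongr

noncomputable def GG (q : ℝ) (i j : ℕ) : ℝ :=
  ∑' k : ℕ, ((k.choose i : ℝ) * (k.choose j)) * q ^ k

theorem GG_comm (q : ℝ) (i j : ℕ) : GG q i j = GG q j i := by
  unfold GG
  congr 1
  funext k
  ring

theorem GG_zero_zero (q : ℝ) (h0 : 0 < q) (h1 : q < 1) : GG q 0 0 = (1 - q)⁻¹ := by
  unfold GG
  simp only [Nat.choose_zero_right, Nat.cast_one, mul_one, one_mul]
  exact tsum_geometric_of_lt_one h0.le h1

theorem GG_succ_zero (q : ℝ) (h0 : 0 < q) (h1 : q < 1) (i : ℕ) :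
    GG q (i + 1) 0 = q / (1 - q) * GG q i 0 := by
  have e : GG q (i + 1) 0 = q * (GG q i 0 + GG q (i + 1) 0) := by
    conv_lhs => unfold GG
    rw [(sum_choose q h0 h1 (i + 1) 0).tsum_eq_zero_add]
    unfold GG
    rw [← (sum_choose q h0 h1 i 0).tsum_add (sum_choose q h0 h1 (i + 1) 0), ← tsum_mul_left]
    simp only [Nat.choose_zero_succ, Nat.cast_zero, zero_mul, zero_add]
    congr 1
    funext k
    rw [Nat.choose_succ_succ]
    push_cast
    simp only [Nat.choose_zero_right, Nat.cast_one]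
    ring
  have h : (1 - q) ≠ 0 := by linarith
  field_simp
  linarith

theorem GG_succ_succ (q : ℝ) (h0 : 0 < q) (h1 : q < 1) (i j : ℕ) :
    GG q (i + 1) (j + 1) = q / (1 - q) * (GG q (i + 1) j + GG q i (j + 1) + GG q i j) := by
  have e : GG q (i + 1) (j + 1) =
      q * (GG q i j + GG q (i + 1) j + (GG q i (j + 1) + GG q (i + 1) (j + 1))) := by
    conv_lhs => unfold GG
    rw [(sum_choose q h0 h1 (i + 1) (j + 1)).tsum_eq_zero_add]
    unfold GG
    rw [← (sum_choose q h0 h1 i j).tsum_add (sum_choose q h0 h1 (i + 1) j),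
      ← (sum_choose q h0 h1 i (j + 1)).tsum_add (sum_choose q h0 h1 (i + 1) (j + 1)),
      ← ((sum_choose q h0 h1 i j).add (sum_choose q h0 h1 (i + 1) j)).tsum_add
        ((sum_choose q h0 h1 i (j + 1)).add (sum_choose q h0 h1 (i + 1) (j + 1))),
      ← tsum_mul_left]
    simp only [Nat.choose_zero_succ, Nat.cast_zero, zero_mul, zero_add]
    congr 1
    funext k
    rw [Nat.choose_succ_succ, Nat.choose_succ_succ]
    push_cast
    ring
  have h : (1 - q) ≠ 0 := by linarith
  field_simp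
  linarith

theorem GG_eq (q : ℝ) (h0 : 0 < q) (h1 : q < 1) (i : ℕ) : ∀ j N, i < N →
    GG q i j = (1 - q)⁻¹ * hh (q / (1 - q)) N i j := by
  induction i with
  | zero =>
    intro j N hN
    rw [hh_zero_left _ N j hN]
    induction j with
    | zero => rw [GG_zero_zero q h0 h1]; ring
    | succ j ih =>
      rw [GG_comm, GG_succ_zero q h0 h1, GG_comm, ih]
      ring
  | succ i ihi =>
    intro j N hN
    obtain ⟨M, rfl⟩ : ∃ M, N = M + 1 := ⟨N - 1, by omega⟩
    induction j with
    | zero =>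
      rw [hh_zero_right _ _ _ (by omega), GG_succ_zero q h0 h1, ihi 0 (M + 1) (by omega),
        hh_zero_right _ _ _ (by omega)]
      ring
    | succ j ihj =>
      rw [GG_succ_succ q h0 h1, hh_succ _ M i j (by omega), ihj, ihi (j + 1) (M + 1) (by omega),
        ihi j (M + 1) (by omega)]
      ring

theorem det_GG (q : ℝ) (h0 : 0 < q) (h1 : q < 1) (n : ℕ) :
    (Matrix.of fun i j : Fin n => GG q i j).det =
      q ^ (n * (n - 1) / 2) / (1 - q) ^ (n ^ 2) := by
  have h : (Matrix.of fun i j : Fin n => GG q i j) =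
      (1 - q)⁻¹ • (Matrix.of fun i j : Fin n => hh (q / (1 - q)) n i j) := by
    ext i j
    simp only [Matrix.of_apply, Matrix.smul_apply, smul_eq_mul]
    exact GG_eq q h0 h1 i j n i.2
  have hq : (1 - q) ≠ 0 := by linarith
  rw [h, Matrix.det_smul, det_hh, Fintype.card_fin]
  have e1 : q / (1 - q) + (q / (1 - q)) ^ 2 = q / (1 - q) ^ 2 := by
    field_simp
    ring
  rw [e1, div_pow, ← pow_mul]
  have e2 : n + 2 * (n * (n - 1) / 2) = n ^ 2 := by
    have h2 : 2 * (n * (n - 1) / 2) = n * (n - 1) :=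
      Nat.mul_div_cancel' (by
        rcases n with _ | n
        · simp
        · rw [Nat.add_sub_cancel, mul_comm]; exact (Nat.even_mul_succ_self n).two_dvd)
    rw [h2]
    rcases n with _ | n
    · simp
    · rw [Nat.add_sub_cancel]; ring
  rw [← e2, pow_add, inv_pow]
  field_simp

/-! ### Andreief -/

theorem andreief (n L : ℕ) (a b : ℕ → ℕ → ℝ) :
    ∑ k : Fin n → Fin L, (Matrix.of fun i j : Fin n => a (k i) j).det *
      (Matrix.of fun i j : Fin n => b (k i) j).det =
    n.factorial * (Matrix.of fun i j : Fin n => ∑ k ∈ range L, a k i * b k j).det := by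
  classical
  -- the determinant on the right as a sum over tuples
  have h1 : (Matrix.of fun i j : Fin n => ∑ k ∈ range L, a k i * b k j).det =
      ∑ k : Fin n → Fin L, (Matrix.of fun i j : Fin n => a (k i) j).det *
        ∏ i : Fin n, b (k i) i := by
    rw [Matrix.det_apply']
    simp only [Matrix.of_apply]
    have h2 : ∀ σ : Equiv.Perm (Fin n), ∏ i : Fin n, ∑ k ∈ range L, a k (σ i) * b k i =
        ∑ k : Fin n → Fin L, ∏ i : Fin n, (a (k i) (σ i) * b (k i) i) := by
      intro σ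
      simp only [Finset.sum_range]
      rw [Finset.prod_univ_sum, Fintype.piFinset_univ]
    simp only [h2, Finset.mul_sum]
    rw [Finset.sum_comm]
    apply Finset.sum_congr rfl
    intro k _
    rw [← Matrix.det_transpose, Matrix.det_apply', Finset.sum_mul]
    apply Finset.sum_congr rfl
    intro σ _
    simp only [Matrix.transpose_apply, Matrix.of_apply]
    rw [Finset.prod_mul_distrib]
    ring
  -- symmetrise
  have h3 : ∀ π : Equiv.Perm (Fin n),
      ∑ k : Fin n → Fin L, (Matrix.of fun i j : Fin n => a (k i) j).det *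
        ∏ i : Fin n, b (k i) i =
      ∑ k : Fin n → Fin L, (Matrix.of fun i j : Fin n => a (k i) j).det *
        (((Equiv.Perm.sign π : ℤ) : ℝ) * ∏ i : Fin n, b (k (π i)) i) := by
    intro π
    rw [← Equiv.sum_comp (Equiv.arrowCongr π⁻¹ (Equiv.refl (Fin L)))
      (fun k : Fin n → Fin L => (Matrix.of fun i j : Fin n => a (k i) j).det *
        ∏ i : Fin n, b (k i) i)]
    apply Finset.sum_congr rfl
    intro k _
    have e : ∀ i, (Equiv.arrowCongr π⁻¹ (Equiv.refl (Fin L)) k) i = k (π i) := by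
      intro i
      rfl
    simp only [e]
    have h4 : (Matrix.of fun i j : Fin n => a (k (π i)) j) =
        (Matrix.of fun i j : Fin n => a (k i) j).submatrix π id := by
      ext i j
      rfl
    rw [h4, Matrix.det_permute]
    ring
  have h5 : ∑ k : Fin n → Fin L, (Matrix.of fun i j : Fin n => a (k i) j).det *
      (Matrix.of fun i j : Fin n => b (k i) j).det =
      ∑ π : Equiv.Perm (Fin n), ∑ k : Fin n → Fin L,
        (Matrix.of fun i j : Fin n => a (k i) j).det *
        (((Equiv.Perm.sign π : ℤ) : ℝ) * ∏ i : Fin n, b (k (π i)) i) := by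
    rw [Finset.sum_comm]
    apply Finset.sum_congr rfl
    intro k _
    rw [← Finset.mul_sum]
    congr 1
    rw [Matrix.det_apply']
    rfl
  rw [h5, h1]
  rw [Finset.sum_congr rfl (fun π _ => (h3 π).symm)]
  rw [Finset.sum_const, Finset.card_univ, Fintype.card_perm, Fintype.card_fin, nsmul_eq_mul]

theorem Vd_eq (n : ℕ) (k : Fin n → ℕ) :
    Vd n k = (sf n * (Matrix.of fun i j : Fin n => ((k i).choose j : ℝ)).det) ^ 2 := by
  rw [← vdm_choose, Matrix.det_vandermonde, ← Finset.prod_pow]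
  unfold Vd
  apply Finset.prod_congr rfl
  intro i _
  rw [← Finset.prod_pow]

theorem s_M : S_M := by
  intro n q h0 h1
  have key : ∀ L : ℕ, ∑ k : Fin n → Fin L, Vd n (fun j => (k j : ℕ)) * q ^ (∑ j, (k j : ℕ)) =
      (n.factorial * (sf n) ^ 2) *
        (Matrix.of fun i j : Fin n => ∑ k ∈ range L,
          ((k.choose i : ℝ) * (k.choose j)) * q ^ k).det := by
    intro L
    have hA := andreief n L (fun k i => (k.choose i : ℝ)) (fun k j => q ^ k * (k.choose j : ℝ))
    have e1 : (Matrix.of fun i j : Fin n => ∑ k ∈ range L,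
          ((k.choose i : ℝ) * (k.choose j)) * q ^ k) =
        (Matrix.of fun i j : Fin n => ∑ k ∈ range L,
          (k.choose i : ℝ) * (q ^ k * (k.choose j : ℝ))) := by
      ext i j
      simp only [Matrix.of_apply]
      apply Finset.sum_congr rfl
      intro k _
      ring
    rw [e1, mul_assoc, mul_comm ((sf n) ^ 2), ← mul_assoc]
    rw [← hA, Finset.sum_mul]
    apply Finset.sum_congr rfl
    intro k _
    rw [Vd_eq]
    have e2 : (Matrix.of fun i j : Fin n => q ^ (k i : ℕ) * (((k i : ℕ).choose j : ℕ) : ℝ)).det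
        = (∏ i : Fin n, q ^ (k i : ℕ)) *
          (Matrix.of fun i j : Fin n => (((k i : ℕ).choose j : ℕ) : ℝ)).det := by
      rw [← Matrix.det_mul_column]
      rfl
    rw [e2, Finset.prod_pow_eq_pow_sum]
    ring
  simp only [key]
  have hlim : Tendsto (fun L : ℕ => (Matrix.of fun i j : Fin n => ∑ k ∈ range L,
          ((k.choose i : ℝ) * (k.choose j)) * q ^ k)) atTop
      (𝓝 (Matrix.of fun i j : Fin n => GG q i j)) := by
    refine tendsto_pi_nhds.2 (fun i => tendsto_pi_nhds.2 (fun j => ?_))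
    exact (sum_choose q h0 h1 i j).hasSum.tendsto_sum_nat
  have hdet : Tendsto (fun L : ℕ => (Matrix.of fun i j : Fin n => ∑ k ∈ range L,
          ((k.choose i : ℝ) * (k.choose j)) * q ^ k).det) atTop
      (𝓝 (Matrix.of fun i j : Fin n => GG q i j).det) :=
    ((continuous_id.matrix_det).tendsto _).comp hlim
  have := hdet.const_mul ((n.factorial : ℝ) * (sf n) ^ 2)
  rw [det_GG q h0 h1] at this
  have e3 : ZM n q = (n.factorial : ℝ) * (sf n) ^ 2 *
      (q ^ (n * (n - 1) / 2) / (1 - q) ^ (n ^ 2)) := by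
    unfold ZM
    ring
  rw [e3]
  exact this

end Pool.Agent.R161.Az
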