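import Mathlib
import Pool.Agent.R161.Az.Defs

set_option autoImplicit false

namespace Pool.Agent.R161.Az

open Finset Matrix

theorem pf_expand {I : Type*} [Fintype I] [DecidableEq I] {n : ℕ} (e : Fin n × Fin 2 → I)
    (T : Finset (Fin n) → Equiv.Perm I)
    (hT0 : ∀ S j, T S (e (j, 0)) = if j ∈ S then e (j, 0) else e (j, 1))
    (hT1 : ∀ S j, T S (e (j, 1)) = if j ∈ S then e (j, 1) else e (j, 0))
    (hs : ∀ S, ((Equiv.Perm.sign (T S) : ℤ) : ℝ) = (-1) ^ (univ \ S).card)
    (a : I → I → ℝ) (h : Equiv.Perm I → ℝ) (hh : ∀ σ S, h (σ * T S) = h σ) :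
    ∑ σ : Equiv.Perm I, ((Equiv.Perm.sign σ : ℤ) : ℝ) *
      ((∏ j : Fin n, (a (σ (e (j, 0))) (σ (e (j, 1))) - a (σ (e (j, 1))) (σ (e (j, 0))))) * h σ)
    = 2 ^ n * ∑ σ : Equiv.Perm I, ((Equiv.Perm.sign σ : ℤ) : ℝ) *
      ((∏ j : Fin n, a (σ (e (j, 0))) (σ (e (j, 1)))) * h σ) := by
  classical
  have h1 : ∀ σ : Equiv.Perm I, ((Equiv.Perm.sign σ : ℤ) : ℝ) *
      ((∏ j : Fin n, (a (σ (e (j, 0))) (σ (e (j, 1))) - a (σ (e (j, 1))) (σ (e (j, 0))))) * h σ)
      = ∑ S ∈ (univ : Finset (Fin n)).powerset, ((Equiv.Perm.sign (σ * T S) : ℤ) : ℝ) *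
        ((∏ j : Fin n, a ((σ * T S) (e (j, 0))) ((σ * T S) (e (j, 1)))) * h (σ * T S)) := by
    intro σ
    simp only [sub_eq_add_neg]
    rw [Finset.prod_add, Finset.sum_mul, Finset.mul_sum]
    apply Finset.sum_congr rfl
    intro S _
    rw [hh, Equiv.Perm.sign_mul]
    have h2 : (∏ j : Fin n, a ((σ * T S) (e (j, 0))) ((σ * T S) (e (j, 1))))
        = (∏ j ∈ S, a (σ (e (j, 0))) (σ (e (j, 1)))) *
          ∏ j ∈ univ \ S, a (σ (e (j, 1))) (σ (e (j, 0))) := by
      rw [← Finset.prod_sdiff (Finset.subset_univ S), mul_comm]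
      congr 1
      · apply Finset.prod_congr rfl
        intro j hj
        simp [Equiv.Perm.mul_apply, hT0, hT1, hj]
      · apply Finset.prod_congr rfl
        intro j hj
        have hj' : j ∉ S := (Finset.mem_sdiff.1 hj).2
        simp [Equiv.Perm.mul_apply, hT0, hT1, hj']
    rw [h2, Finset.prod_neg]
    push_cast
    rw [hs S]
    ring
  rw [Finset.sum_congr rfl (fun σ _ => h1 σ), Finset.sum_comm]
  have h3 : ∀ S ∈ (univ : Finset (Fin n)).powerset,
      ∑ σ : Equiv.Perm I, ((Equiv.Perm.sign (σ * T S) : ℤ) : ℝ) *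
        ((∏ j : Fin n, a ((σ * T S) (e (j, 0))) ((σ * T S) (e (j, 1)))) * h (σ * T S))
      = ∑ σ : Equiv.Perm I, ((Equiv.Perm.sign σ : ℤ) : ℝ) *
      ((∏ j : Fin n, a (σ (e (j, 0))) (σ (e (j, 1)))) * h σ) := by
    intro S _
    exact Equiv.sum_comp (Equiv.mulRight (T S)) (fun σ => ((Equiv.Perm.sign σ : ℤ) : ℝ) *
      ((∏ j : Fin n, a (σ (e (j, 0))) (σ (e (j, 1)))) * h σ))
  rw [Finset.sum_congr rfl h3, Finset.sum_const, Finset.card_powerset, Finset.card_univ,
    Fintype.card_fin, nsmul_eq_mul]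
  push_cast
  ring

/-- the permutation that swaps the pairs outside `S` -/
def tau {n : ℕ} (S : Finset (Fin n)) : Equiv.Perm (Fin n × Fin 2) :=
  Equiv.prodCongrRight (fun j => if j ∈ S then 1 else Equiv.swap 0 1)

theorem tau_zero {n : ℕ} (S : Finset (Fin n)) (j : Fin n) :
    tau S (j, 0) = if j ∈ S then (j, 0) else (j, 1) := by
  unfold tau
  by_cases h : j ∈ S <;> simp [Equiv.prodCongrRight, h]

theorem tau_one {n : ℕ} (S : Finset (Fin n)) (j : Fin n) :
    tau S (j, 1) = if j ∈ S then (j, 1) else (j, 0) := by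
  unfold tau
  by_cases h : j ∈ S <;> simp [Equiv.prodCongrRight, h]

theorem sign_tau {n : ℕ} (S : Finset (Fin n)) :
    Equiv.Perm.sign (tau S) = (-1) ^ (univ \ S).card := by
  unfold tau
  rw [Equiv.Perm.sign_prodCongrRight, ← Finset.prod_sdiff (Finset.subset_univ S)]
  have h1 : ∏ x ∈ S, Equiv.Perm.sign (if x ∈ S then (1 : Equiv.Perm (Fin 2))
      else Equiv.swap 0 1) = 1 := by
    apply Finset.prod_eq_one
    intro x hx
    simp [hx]
  have h2 : ∏ x ∈ univ \ S, Equiv.Perm.sign (if x ∈ S then (1 : Equiv.Perm (Fin 2))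
      else Equiv.swap 0 1) = (-1) ^ (univ \ S).card := by
    rw [← Finset.prod_const]
    apply Finset.prod_congr rfl
    intro x hx
    have hx' : x ∉ S := (Finset.mem_sdiff.1 hx).2
    rw [if_neg hx']
    exact Equiv.Perm.sign_swap (by decide)
  rw [h1, h2, mul_one]

theorem Kf_eq (L : ℕ) (u : ℕ → ℕ → ℝ) (i j : ℕ) : Kf u L i j =
    (∑ k ∈ range L, u i (2 * k) * u j (2 * k + 1)) -
      ∑ k ∈ range L, u j (2 * k) * u i (2 * k + 1) := by
  unfold Kf
  rw [Finset.sum_sub_distrib]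
  congr 1
  apply Finset.sum_congr rfl
  intro k _
  ring

theorem prod_range_sum (n L : ℕ) (g : Fin n → ℕ → ℝ) :
    ∏ j : Fin n, ∑ k ∈ range L, g j k = ∑ k : Fin n → Fin L, ∏ j : Fin n, g j (k j) := by
  simp only [Finset.sum_range]
  rw [Finset.prod_univ_sum, Fintype.piFinset_univ]

theorem s_PF : S_PF := by
  intro n L u
  unfold PF
  simp only [Kf_eq]
  have h := pf_expand (I := Fin n × Fin 2) (n := n) id tau
    (fun S j => by simpa using tau_zero S j) (fun S j => by simpa using tau_one S j)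
    (fun S => by rw [sign_tau]; push_cast; ring)
    (fun p q => ∑ k ∈ range L, u (ix p) (2 * k) * u (ix q) (2 * k + 1)) (fun _ => 1)
    (fun _ _ => rfl)
  simp only [id, mul_one] at h
  rw [h]
  congr 1
  simp only [prod_range_sum]
  simp only [Finset.mul_sum]
  rw [Finset.sum_comm]
  apply Finset.sum_congr rfl
  intro k _
  rw [Matrix.det_apply']
  apply Finset.sum_congr rfl
  intro σ _
  congr 1
  rw [Fintype.prod_prod_type]
  apply Finset.prod_congr rfl
  intro j _
  simp [PM, Fin.prod_univ_two]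

theorem s_PFD : S_PFD := by
  intro n L L' u g
  unfold PFD
  simp only [Kf_eq]
  have h := pf_expand (I := (Fin n × Fin 2) ⊕ Unit) (n := n) Sum.inl
    (fun S => Equiv.sumCongr (tau S) 1)
    (fun S j => by
      simp only [Equiv.sumCongr_apply, Sum.map_inl, tau_zero S j]
      split_ifs <;> rfl)
    (fun S j => by
      simp only [Equiv.sumCongr_apply, Sum.map_inl, tau_one S j]
      split_ifs <;> rfl)
    (fun S => by
      have := Equiv.Perm.sign_sumCongr (tau S) (1 : Equiv.Perm Unit)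
      rw [sign_tau, Equiv.Perm.sign_one, mul_one] at this
      have h' : Equiv.Perm.sign (Equiv.sumCongr (tau S) (1 : Equiv.Perm Unit)) =
        (-1) ^ (univ \ S).card := this
      rw [h']; push_cast; ring)
    (fun p q => ∑ k ∈ range L, u (ix' p) (2 * k) * u (ix' q) (2 * k + 1))
    (fun σ => ∑ t ∈ range L', g t * u (ix' (σ (Sum.inr ()))) t)
    (fun σ S => by simp [Equiv.Perm.mul_apply])
  rw [h]
  congr 1
  simp only [prod_range_sum]
  simp only [Finset.sum_mul_sum]
  simp only [Finset.mul_sum]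
  conv_rhs => rw [Finset.sum_comm]
  apply Finset.sum_congr rfl
  intro k _
  conv_rhs => rw [Finset.sum_comm]
  apply Finset.sum_congr rfl
  intro t _
  rw [Matrix.det_apply', Finset.mul_sum]
  apply Finset.sum_congr rfl
  intro σ _
  rw [Fintype.prod_sum_type, Fintype.prod_prod_type]
  simp only [Finset.univ_unique, Finset.prod_singleton, Fin.prod_univ_two]
  simp only [PMD, Matrix.of_apply]
  have : (default : Unit) = () := rfl
  rw [this]
  simp only [Fin.val_zero, add_zero, Fin.val_one]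
  ring

end Pool.Agent.R161.Az
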