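import Mathlib
import Pool.Agent.R161.Az.Defs

set_option autoImplicit false

namespace Pool.Agent.R161.Az

open Finset Matrix

/-- sum of a symmetric function that vanishes on non-injective tuples -/
theorem sum_tuples (n L : ℕ) (F : (Fin n → Fin L) → ℝ)
    (hs : ∀ (k : Fin n → Fin L) (σ : Equiv.Perm (Fin n)), F (k ∘ σ) = F k)
    (h0 : ∀ k : Fin n → Fin L, ¬ Function.Injective k → F k = 0) :
    ∑ k : Fin n → Fin L, F k = n.factorial * ∑ k : Fin n ↪o Fin L, F k := by
  classical
  have key := Fintype.sum_of_injective
    (fun p : (Fin n ↪o Fin L) × Equiv.Perm (Fin n) => ((p.1 : Fin n → Fin L) ∘ p.2))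
    (by
      rintro ⟨e, σ⟩ ⟨e', σ'⟩ h
      simp only at h
      have hr : Set.range (e : Fin n → Fin L) = Set.range (e' : Fin n → Fin L) := by
        rw [← σ.surjective.range_comp e, ← σ'.surjective.range_comp e', h]
      have he : e = e' := by
        have := (StrictMono.range_inj e.strictMono e'.strictMono).1 hr
        exact DFunLike.coe_injective this
      subst he
      have hσ : σ = σ' := by
        ext i
        have := congrFun h i
        simp only [Function.comp_apply] at this
        exact congrArg _ (e.injective this)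
      rw [hσ])
    (fun p => F p.1) F
    (by
      intro k hk
      apply h0
      intro hinj
      apply hk
      refine ⟨(⟨⟨k ∘ Tuple.sort k, hinj.comp (Tuple.sort k).injective⟩, ?_⟩,
        (Tuple.sort k)⁻¹), ?_⟩
      · intro a b
        have hsm : StrictMono (k ∘ Tuple.sort k) :=
          (Tuple.monotone_sort k).strictMono_of_injective (hinj.comp (Tuple.sort k).injective)
        exact hsm.le_iff_le
      · funext i
        simp)
    (by
      rintro ⟨e, σ⟩
      simp only
      rw [hs])
  rw [← key, Fintype.sum_prod_type]
  simp only [Finset.sum_const, Finset.card_univ, Fintype.card_perm, Fintype.card_fin,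
    nsmul_eq_mul]
  rw [Finset.mul_sum]

theorem s_sym : S_sym := by
  intro n L u
  apply sum_tuples n L (fun k => (PM n u (fun j => (k j : ℕ))).det)
  · intro k σ
    have h : PM n u (fun j => (((k ∘ σ) j : Fin L) : ℕ)) =
        (PM n u (fun j => (k j : ℕ))).submatrix id
          (Equiv.prodCongrLeft (fun _ : Fin 2 => σ)) := by
      ext p q
      rfl
    rw [h, Matrix.det_permute']
    rw [Equiv.Perm.sign_prodCongrLeft]
    simp
  · intro k hk
    simp only [Function.Injective, not_forall] at hk
    obtain ⟨i, j, hij, hne⟩ := hk
    apply Matrix.det_zero_of_column_eq (i := (i, 0)) (j := (j, 0))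
    · intro h
      exact hne (Prod.mk.inj h).1
    · intro p
      simp [PM, hij]

theorem s_symD : S_symD := by
  intro n L t u
  apply sum_tuples n L (fun k => (PMD n u (fun j => (k j : ℕ)) t).det)
  · intro k σ
    have h : PMD n u (fun j => (((k ∘ σ) j : Fin L) : ℕ)) t =
        (PMD n u (fun j => (k j : ℕ)) t).submatrix id
          (Equiv.sumCongr (Equiv.prodCongrLeft (fun _ : Fin 2 => σ)) (1 : Equiv.Perm Unit)) := by
      ext p q
      rcases q with q | q <;> rfl
    rw [h, Matrix.det_permute']
    have hs : Equiv.Perm.sign (Equiv.sumCongr (Equiv.prodCongrLeft (fun _ : Fin 2 => σ))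
        (1 : Equiv.Perm Unit)) = 1 := by
      have := Equiv.Perm.sign_sumCongr (Equiv.prodCongrLeft (fun _ : Fin 2 => σ))
        (1 : Equiv.Perm Unit)
      rw [Equiv.Perm.sign_prodCongrLeft] at this
      simpa using this
    rw [hs]
    simp
  · intro k hk
    simp only [Function.Injective, not_forall] at hk
    obtain ⟨i, j, hij, hne⟩ := hk
    apply Matrix.det_zero_of_column_eq (i := Sum.inl (i, 0)) (j := Sum.inl (j, 0))
    · intro h
      exact hne (Prod.mk.inj (Sum.inl.inj h)).1
    · intro p
      simp [PMD, hij]

end Pool.Agent.R161.Az
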