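import Mathlib
import Pool.Agent.R161.Az.Defs
import Pool.Agent.R102.Az.Vdm

set_option autoImplicit false

namespace Pool.Agent.R161.Az

open Finset Matrix

theorem vv_det (N : ℕ) (v : Fin N → ℕ) :
    (Matrix.of fun a b : Fin N => VV a (v b)).det =
      kp ^ (N * (N - 1) / 2) * dl ^ (∑ b, v b) *
        (∏ a : Fin N, ∏ b ∈ Ioi a, ((v b : ℝ) - v a)) / sf N := by
  have h1 : (Matrix.of fun a b : Fin N => VV a (v b)) =
      (Matrix.of fun a l : Fin N => ((a : ℕ).choose l : ℝ) * kp ^ (l : ℕ) * dl ^ ((a : ℕ) - l)) *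
      (Matrix.of fun l b : Fin N => dl ^ (v b) *
        ((Matrix.of fun b l : Fin N => ((v b).choose l : ℝ))ᵀ) l b) := by
    ext a b
    rw [Matrix.mul_apply]
    simp only [Matrix.of_apply, Matrix.transpose_apply]
    unfold VV
    rw [Finset.mul_sum]
    rw [Fin.sum_univ_eq_sum_range (fun l => ((a : ℕ).choose l : ℝ) * kp ^ l * dl ^ ((a : ℕ) - l) *
      (dl ^ (v b) * ((v b).choose l : ℝ))) N]
    rw [← Finset.sum_subset (Finset.range_subset_range.2 (show (a : ℕ) + 1 ≤ N from a.2))]
    · apply Finset.sum_congr rfl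
      intro l _
      ring
    · intro l _ hl
      rw [Finset.mem_range, not_lt] at hl
      rw [Nat.choose_eq_zero_of_lt (by omega)]
      simp
  have h2 : (Matrix.of fun a l : Fin N =>
      ((a : ℕ).choose l : ℝ) * kp ^ (l : ℕ) * dl ^ ((a : ℕ) - l)).det = kp ^ (N * (N - 1) / 2) := by
    rw [Matrix.det_of_lowerTriangular]
    · simp only [Matrix.of_apply, Nat.choose_self, Nat.cast_one, one_mul, Nat.sub_self, pow_zero,
        mul_one]
      rw [Fin.prod_univ_eq_prod_range (fun l => kp ^ l) N, Finset.prod_pow_eq_pow_sum,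
        Finset.sum_range_id]
    · intro i j hij
      simp only [Matrix.of_apply]
      have : (i : ℕ) < j := hij
      rw [Nat.choose_eq_zero_of_lt this]
      simp
  have hsf : sf N ≠ 0 := by
    unfold sf
    exact Finset.prod_ne_zero_iff.2 (fun i _ => by positivity)
  have h3 := vdm_choose N v
  rw [Matrix.det_vandermonde] at h3
  rw [h1, Matrix.det_mul, h2, Matrix.det_mul_row (fun b : Fin N => dl ^ (v b)),
    Matrix.det_transpose, Finset.prod_pow_eq_pow_sum, h3]
  field_simp

/-- the same for an arbitrary index type -/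
theorem vv_det' {I : Type*} [Fintype I] [DecidableEq I] (N : ℕ) (e : I ≃ Fin N) (w : I → ℕ) :
    (Matrix.of fun p q : I => VV (e p) (w q)).det =
      kp ^ (N * (N - 1) / 2) * dl ^ (∑ q, w q) *
        (∏ p : I, ∏ q : I, if e p < e q then ((w q : ℝ) - w p) else 1) / sf N := by
  have h := vv_det N (w ∘ e.symm)
  have h1 : (Matrix.of fun p q : I => VV (e p) (w q)) =
      (Matrix.of fun a b : Fin N => VV a ((w ∘ e.symm) b)).submatrix e e := by
    ext p q
    simp
  rw [h1, Matrix.det_submatrix_equiv_self, h]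
  congr 2
  · congr 1
    congr 1
    exact Equiv.sum_comp e.symm w
  · rw [← Equiv.prod_comp e.symm]
    apply Finset.prod_congr rfl
    intro a _
    rw [← Equiv.prod_comp e.symm]
    simp only [Equiv.apply_symm_apply, Function.comp_apply]
    rw [← Finset.prod_filter]
    apply Finset.prod_congr _ (fun _ _ => rfl)
    ext b
    simp

theorem e_val (n : ℕ) (p : Fin n × Fin 2) : ((finProdFinEquiv p : Fin (n * 2)) : ℕ) = ix p := by
  simp [finProdFinEquiv, ix]
  ring

theorem pair_prod (n : ℕ) (k : Fin n → ℕ) (lt : Fin n × Fin 2 → Fin n × Fin 2 → Prop)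
    [∀ p q, Decidable (lt p q)] (hlt : ∀ p q, lt p q ↔ ix p < ix q) :
    (∏ p : Fin n × Fin 2, ∏ q : Fin n × Fin 2,
      if lt p q then (((2 * k q.1 + q.2 : ℕ) : ℝ) - ((2 * k p.1 + p.2 : ℕ) : ℝ)) else 1) =
    Vp n k := by
  unfold Vp
  rw [Fintype.prod_prod_type]
  apply Finset.prod_congr rfl
  intro i _
  rw [Fin.prod_univ_two, ← Finset.prod_mul_distrib, Fintype.prod_prod_type]
  simp only [Fin.prod_univ_two]
  have h1 : ∏ j ∈ Ioi i, ((2 * ((k j : ℝ) - k i)) ^ 2 * ((2 * ((k j : ℝ) - k i)) ^ 2 - 1)) =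
      ∏ j : Fin n, if i < j then
        ((2 * ((k j : ℝ) - k i)) ^ 2 * ((2 * ((k j : ℝ) - k i)) ^ 2 - 1)) else 1 := by
    rw [← Finset.prod_filter]
    apply Finset.prod_congr _ (fun _ _ => rfl)
    ext b
    simp
  rw [h1]
  apply Finset.prod_congr rfl
  intro j _
  simp only [hlt, ix, Fin.val_zero, Fin.val_one, add_zero]
  rcases lt_trichotomy i j with h | h | h
  · have h' : (i : ℕ) < j := h
    rw [if_pos (by omega), if_pos (by omega), if_pos (by omega), if_pos (by omega), if_pos h]
    push_cast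
    ring
  · subst h
    rw [if_neg (by omega), if_neg (by omega), if_pos (by omega), if_neg (by omega),
      if_neg (lt_irrefl _)]
    push_cast
    ring
  · have h' : (j : ℕ) < i := h
    rw [if_neg (by omega), if_neg (by omega), if_neg (by omega), if_neg (by omega),
      if_neg (by omega)]
    ring

theorem pair_sum (n : ℕ) (k : Fin n → ℕ) :
    ∑ q : Fin n × Fin 2, (2 * k q.1 + q.2 : ℕ) = ∑ j, (4 * k j + 1) := by
  rw [Fintype.sum_prod_type]
  apply Finset.sum_congr rfl
  intro j _
  rw [Fin.sum_univ_two]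
  simp only [Fin.val_zero, Fin.val_one]
  ring

theorem s_V : S_V := by
  intro n k
  have h := vv_det' (n * 2) (finProdFinEquiv : Fin n × Fin 2 ≃ Fin (n * 2))
    (fun q => 2 * k q.1 + q.2)
  have h1 : PM n VV k = Matrix.of fun p q : Fin n × Fin 2 =>
      VV ((finProdFinEquiv p : Fin (n * 2)) : ℕ) (2 * k q.1 + q.2) := by
    ext p q
    simp only [PM, Matrix.of_apply, e_val]
  rw [h1, h, pair_sum, pair_prod n k _ (fun p q => by rw [Fin.lt_def, e_val, e_val])]
  have e1 : n * 2 * (n * 2 - 1) / 2 = n * (2 * n - 1) := by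
    rw [mul_comm n 2, mul_assoc, Nat.mul_div_cancel_left _ (by norm_num : 0 < 2)]
  rw [e1, mul_comm n 2]

/-- the enumeration of the rows with one more element -/
def eD (n : ℕ) : ((Fin n × Fin 2) ⊕ Unit) ≃ Fin (n * 2 + 1) :=
  (Equiv.sumCongr finProdFinEquiv (Equiv.ofUnique Unit (Fin 1))).trans finSumFinEquiv

theorem eD_inl (n : ℕ) (p : Fin n × Fin 2) : ((eD n (Sum.inl p) : Fin (n * 2 + 1)) : ℕ) = ix p := by
  have := e_val n p
  simpa [eD] using this

theorem eD_inr (n : ℕ) : ((eD n (Sum.inr ()) : Fin (n * 2 + 1)) : ℕ) = n * 2 := by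
  simp [eD]

theorem ix_lt (n : ℕ) (p : Fin n × Fin 2) : ix p < n * 2 := by
  unfold ix
  have h1 := p.1.2
  have h2 := p.2.2
  omega

theorem s_VD : S_VD := by
  intro n k t
  have h := vv_det' (n * 2 + 1) (eD n)
    (fun q : (Fin n × Fin 2) ⊕ Unit => match q with
      | Sum.inl q => 2 * k q.1 + q.2
      | Sum.inr _ => t)
  have h1 : PMD n VV k t = Matrix.of fun p q : (Fin n × Fin 2) ⊕ Unit =>
      VV ((eD n p : Fin (n * 2 + 1)) : ℕ) (match q with
      | Sum.inl q => 2 * k q.1 + q.2
      | Sum.inr _ => t) := by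
    ext p q
    simp only [PMD, Matrix.of_apply]
    congr 1
    rcases p with p | p
    · rw [eD_inl]; rfl
    · rw [eD_inr]; simp [ix', mul_comm]
  rw [h1, h]
  have e1 : (n * 2 + 1) * (n * 2 + 1 - 1) / 2 = n * (2 * n + 1) := by
    have : (n * 2 + 1) * (n * 2 + 1 - 1) = 2 * (n * (2 * n + 1)) := by
      rw [Nat.add_sub_cancel]; ring
    rw [this, Nat.mul_div_cancel_left _ (by norm_num : 0 < 2)]
  have e2 : sf (n * 2 + 1) = sf (2 * n + 1) := by rw [mul_comm]
  rw [e1, e2]
  congr 2
  · congr 2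
    rw [Fintype.sum_sum_type]
    simp only [Finset.univ_unique, Finset.sum_singleton]
    rw [pair_sum]
  · rw [Fintype.prod_sum_type]
    simp only [Fintype.prod_sum_type, Finset.univ_unique, Finset.prod_singleton]
    rw [Finset.prod_mul_distrib]
    rw [pair_prod n k _ (fun p q => by rw [Fin.lt_def, eD_inl, eD_inl])]
    have a1 : ∀ p : Fin n × Fin 2, (eD n (Sum.inl p) < eD n (Sum.inr (default : Unit))) := by
      intro p
      rw [Fin.lt_def, eD_inl]
      have := eD_inr n
      have h' := ix_lt n p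
      show ix p < ((eD n (Sum.inr ()) : Fin (n * 2 + 1)) : ℕ)
      omega
    have a2 : ∀ p : Fin n × Fin 2, ¬ (eD n (Sum.inr (default : Unit)) < eD n (Sum.inl p)) := by
      intro p
      exact not_lt.2 (a1 p).le
    simp only [a1, a2, if_true, if_false, lt_irrefl, Finset.prod_const_one, mul_one]
    congr 1
    rw [Fintype.prod_prod_type]
    apply Finset.prod_congr rfl
    intro j _
    rw [Fin.prod_univ_two]
    simp only [Fin.val_zero, Fin.val_one]
    push_cast
    ring

end Pool.Agent.R161.Az
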